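import Pool.Agent.K9h97.FD.U4

/-!
# Large values of Dirichlet polynomials at all subsets of a generic linear image

Q1 asks for `R ≤ C N² V⁻² T^ε` for all `1`-spaced families `t_1, …, t_R` in `[0,T]` at which a Dirichlet
polynomial of length `N` with coefficients bounded by `1` is at least `V`, `V² ≥ N T^ε`; this is known
for `V² > N T^(1/2+ε)`.

Let `Q` be any `1`-separated set of at most `N^A` vectors of `ℝ^d` (for `d = 1`: any `1`-separated set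
of real numbers), let `μ` be a probability measure on `ℝ^d` whose Fourier transform decays like
`|ξ|^{-β}`, `0 < β ≤ 1`, and `Λ ≥ N^(j/β)`. We consider the points `t₀ + Λ ⟨x, s⟩`, `s ∈ Q`. For all `x`
outside ONE set of measure `O(N^(-B))`, `ε = (2A + B + 1)/j`, the following holds for ALL subsets
`S`, `T` of `Q`, all coefficients and all translations at the same time.
1. The mean square of `D` over the sums `s + t` of the elements of `S` and `T` is `O(N^(1+ε))`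
   (square root cancellation) as soon as `|S|, |T| ≥ N^(1-ε)`; there is a sharp bound for all `S`, `T`.
2. The bound of Q1 holds in its full range `V² ≥ 2 K N^(1+ε)` for every subset `S` with
   `|S|³ ≤ K E(S)`, `E` the additive energy.
3. The bound of Q1 holds for every subset `S` if `V² ≥ 2 N^(3/2+ε/2)`, however large `Λ` and the length
   `T` of the interval containing the points are.
Here `Λ` is a power of `N`: for `β = 1`, `Λ = N^j` the loss `N^ε` is `T^(O(1/j²))`.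

Proof. The moment of order `2j` of `∑_{n ≤ N} n^{iΛ⟨x,k⟩}`, `|k| ≥ 1`, is `O(N^(j+1))` by the bound for
the number of ordered factorisations, so that outside a small set of `x` all these sums for the
differences `k` of elements of `Q` are at most `N^((1+ε)/2)`. Now 1 follows by duality, and 2 from the
same estimate for the pairs `s, s'` with `s + s' = b + b'`, `b, b'` in `S` (Heath-Brown's bound for the
energy of a set of large values), 3 is the theorem of Halász and Montgomery.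
-/

set_option autoImplicit false

namespace Pool.Agent.Results.MP_a93a41_nt.AllSubsetsOfGenericImages

open MeasureTheory Finset
open scoped Pointwise

/-- `D(t) = ∑_{n ≤ N} a_n n^{-it}` -/
noncomputable def D (N : ℕ) (a : ℕ → ℂ) (t : ℝ) : ℂ :=
  ∑ n ∈ Icc 1 N, a n * (n : ℂ) ^ (-((t : ℂ) * Complex.I))

/-- `N² R + N^(1+ε) R²` -/
noncomputable def G (N : ℕ) (ε R : ℝ) : ℝ := (N : ℝ) ^ 2 * R + (N : ℝ) ^ (1 + ε) * R ^ 2

/-- For every `j ≥ 1` there is a constant `c` with the following property. Let `μ` be a probability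
measure on `ℝ^d` with `|∫ e^{i⟨ξ,x⟩} dμ(x)| ≤ C ‖ξ‖^{-β}` for `ξ ≠ 0` (maximum norm), `C ≥ 1`,
`0 < β ≤ 1`, let `N ≥ 1`, `Λ > 0`, `Λ^β ≥ N^j`, `2A + B + 1 ≤ ε j`, and let `Q ⊂ ℝ^d` be a finite set with
`‖s - t‖ ≥ 1` for `s ≠ t` in `Q` and `|Q| ≤ N^A`. There is a set `E` with `μ(E) ≤ c C N^{-B}` such that for
all `x ∉ E`, all `|a_n| ≤ 1`, all real `t₀` and all `S ⊆ Q`:
(1) for all `T ⊆ Q`, `∑_{s ∈ S, t ∈ T} |D(t₀ + Λ⟨x,s+t⟩)|² ≤ G(|S|)^(1/2) G(|T|)^(1/2)`,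
`G(R) = N² R + N^(1+ε) R²`;
(2) if `|D(t₀ + Λ⟨x,s⟩)| ≥ V` on `S`, `|S|³ ≤ K E(S)` and `V² ≥ 2 K N^(1+ε)`, then `|S| ≤ 2 K N²/V²`;
(3) if `|D(t₀ + Λ⟨x,s⟩)| ≥ V` on `S` and `V² ≥ 2 N^(3/2+ε/2)`, then `|S| ≤ 2 N²/V²`. -/
theorem result (j : ℕ) (hj : 1 ≤ j) : ∃ c : ℝ, 1 ≤ c ∧
    ∀ (d : ℕ) (μ : Measure (Fin d → ℝ)) [IsProbabilityMeasure μ] (C β Λ : ℝ),
    1 ≤ C → 0 < β → β ≤ 1 →
    (∀ ξ : Fin d → ℝ, ξ ≠ 0 →
      ‖∫ x, Complex.exp (((∑ i, ξ i * x i : ℝ) : ℂ) * Complex.I) ∂μ‖ ≤ C * ‖ξ‖ ^ (-β)) →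
    0 < Λ → ∀ N : ℕ, 1 ≤ N → (N : ℝ) ^ j ≤ Λ ^ β →
    ∀ ε A B : ℝ, 2 * A + B + 1 ≤ ε * j →
    ∀ Q : Finset (Fin d → ℝ), (∀ s ∈ Q, ∀ t ∈ Q, s ≠ t → 1 ≤ ‖s - t‖) →
      (Q.card : ℝ) ≤ (N : ℝ) ^ A →
      ∃ E : Set (Fin d → ℝ), MeasurableSet E ∧ μ E ≤ ENNReal.ofReal (c * C * (N : ℝ) ^ (-B)) ∧
        ∀ x ∉ E, ∀ (a : ℕ → ℂ) (t₀ : ℝ), (∀ n, ‖a n‖ ≤ 1) → ∀ S ⊆ Q,
          (∀ T ⊆ Q, ∑ s ∈ S, ∑ t ∈ T, ‖D N a (t₀ + Λ * ∑ i, x i * (s i + t i))‖ ^ 2 ≤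
            Real.sqrt (G N ε S.card) * Real.sqrt (G N ε T.card)) ∧
          ∀ V : ℝ, 0 < V → (∀ s ∈ S, V ≤ ‖D N a (t₀ + Λ * ∑ i, x i * s i)‖) →
            (∀ K : ℝ, 0 < K → (S.card : ℝ) ^ 3 ≤ K * (S.addEnergy S : ℕ) →
              2 * K * (N : ℝ) ^ (1 + ε) ≤ V ^ 2 → (S.card : ℝ) ≤ 2 * K * ((N : ℝ) ^ 2 / V ^ 2)) ∧
            (2 * (N : ℝ) ^ (3 / 2 + ε / 2) ≤ V ^ 2 →
              (S.card : ℝ) ≤ 2 * ((N : ℝ) ^ 2 / V ^ 2)) :=
  Pool.Agent.K9h97.FD.mainU j hj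

end Pool.Agent.Results.MP_a93a41_nt.AllSubsetsOfGenericImages
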