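import Pool.Agent.K9h97.FD.E

/-!
# Large values of Dirichlet polynomials at generic linear images of sets of integer vectors

Q1 asks for `R ≤ C N² V⁻² T^ε` for all `1`-spaced families `t_1, …, t_R` in `[0,T]` at which a Dirichlet
polynomial of length `N` with coefficients bounded by `1` is at least `V`, `V² ≥ N T^ε`.

Here the points are `t₀ + Λ ⟨x, s⟩`, where `s` runs over a finite set `S` of integer vectors of dimension
`d` with large additive energy (`|S|³ ≤ K E(S)`, for instance a box or any generalised arithmetic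
progression), and `x` is random with respect to any probability measure `μ` on `ℝ^d` whose Fourier
transform decays like `|ξ|^{-β}`, `0 < β ≤ 1`: for example `μ` may be carried by a fractal set of
dimension smaller than `1` (Salem sets), by a curve (the points are then the values `Λ P(λ)` of a set
of integer polynomials `P` at a random number `λ`), or by a surface. If `Λ^β ≥ N^(1 - β/d)` then the
bound of Q1 holds, up to logarithms, in its full range `V² ≥ N T^ε` for all `x` outside a set of small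
`μ`-measure, for all coefficients and all translations `t₀` at the same time. The starting theorem
`LargeEnergyDilates` is the case of the Lebesgue measure on `[1, 2]`, `d = 1`, with `K^20` and `K^11` in
place of `K`.

Proof. If `s + s' = b + b'` in `S` then the value at `b` is the value at `s + s' - b'`. Hence
`V² E(S)` is at most the sum over `b' ∈ S` of the sum over all pairs `s, s' ∈ S` of the squares of the
values at `t₀ + Λ ⟨x, s + s' - b'⟩`, and by duality each of these double sums is at most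
`∑_{m,n ≤ N} |∑_{s ∈ S} (n/m)^{i Λ ⟨x,s⟩}|²` (an inequality of Heath-Brown), whose mean with respect to
`μ` is a sum of values of the Fourier transform of `μ` at the frequencies `Λ log (n/m) (s - s')`; these
are estimated by a rearrangement for arbitrary finite sets `S ⊂ ℤ^d`.
-/

set_option autoImplicit false

namespace Pool.Agent.Results.MP_a93a41_nt.FourierDecayDilates

open MeasureTheory
open scoped Pointwise

/-- For every probability measure `μ` on `ℝ^d` with `|∫ e^{i⟨ξ,x⟩} dμ(x)| ≤ C ‖ξ‖^{-β}` (maximum norm),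
`C ≥ 1`, `0 < β ≤ 1`, all `N ≥ 1`, all `Λ > 0` with `Λ^β ≥ N^(1 - β/d)`, all finite sets `S` of integer
vectors with `|S|³ ≤ K E(S)` and all `η > 0` there is a set `E` with `μ(E) ≤ η` such that for all `x ∉ E`,
all `|a_n| ≤ 1`, `t₀` and `V` with `V² ≥ 14 C K η⁻¹ N (1 + log N) (1 + log |S|)`: if
`|∑_{n ≤ N} a_n n^{-i (t₀ + Λ ⟨x,s⟩)}| ≥ V` for all `s ∈ S`, then
`|S| ≤ 14 C K η⁻¹ (1 + log N) (1 + log |S|) N² V⁻²`. -/
theorem result (d : ℕ) (hd : 1 ≤ d) (μ : Measure (Fin d → ℝ)) [IsProbabilityMeasure μ]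
    (C β : ℝ) (hC : 1 ≤ C) (hβ0 : 0 < β) (hβ1 : β ≤ 1)
    (hμ : ∀ ξ : Fin d → ℝ, ξ ≠ 0 →
      ‖∫ x, Complex.exp (((∑ i, ξ i * x i : ℝ) : ℂ) * Complex.I) ∂μ‖ ≤ C * ‖ξ‖ ^ (-β))
    (N : ℕ) (hN : 1 ≤ N) (Λ : ℝ) (hΛ : 0 < Λ) (hNΛ : (N : ℝ) ^ (1 - β / d) ≤ Λ ^ β)
    (S : Finset (Fin d → ℤ)) (K η : ℝ) (hK : 1 ≤ K) (hη : 0 < η)
    (hS : (S.card : ℝ) ^ 3 ≤ K * (S.addEnergy S : ℕ)) :
    ∃ E : Set (Fin d → ℝ), MeasurableSet E ∧ μ E ≤ ENNReal.ofReal η ∧ ∀ x ∉ E,
      ∀ (a : ℕ → ℂ) (t₀ V : ℝ), (∀ n, ‖a n‖ ≤ 1) → 0 < V →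
        14 * C * K * ((1 + Real.log S.card) * (1 + Real.log N)) * N ≤ η * V ^ 2 →
        (∀ s ∈ S, V ≤ ‖∑ n ∈ Finset.Icc 1 N,
          a n * (n : ℂ) ^ (-(((t₀ + Λ * ∑ i, x i * (s i : ℝ) : ℝ) : ℂ) * Complex.I))‖) →
        (S.card : ℝ) ≤ 14 * C * K / η * ((1 + Real.log S.card) * (1 + Real.log N)) *
          ((N : ℝ) ^ 2 / V ^ 2) :=
  Pool.Agent.K9h97.FD.large_energyM hd μ C β Λ hC hβ0 hβ1 hμ hΛ N hN hNΛ S K η hK hη hS

end Pool.Agent.Results.MP_a93a41_nt.FourierDecayDilates
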