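import Mathlib
import Pool.Agent.K9h70.RE.TopB

/-!
# Large values of Dirichlet polynomials: generic one-parameter perturbations of arbitrary points

Let `τ_0, …, τ_{R-1}` be ARBITRARY real numbers, `R ≤ N^B`, and perturb them to

`t_r(u) = τ_r + w_r x_r^u`, `r < R`, with one real parameter `u` in `[0, 1]`,

where the bases `x_r` in `[1 + N^{-B}, N^B]` have mutual distances at least `N^{-B}` (for instance
`x_r = r + 2`) and `T N^{-B} ≤ |w_r| ≤ T` (for instance `w_r = T`). For all `u` outside a set of measure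
`O(N^{-B})` these points satisfy

(1) the large sieve inequality of the quality of Montgomery's conjecture, for all coefficients,
`∑_r |D(i t_r(u))|^2 ≤ T^ε (|I| + R) ∑_{n ∈ I} |a_n|^2`, `D(s) = ∑_{n ∈ I} a_n n^{-s}`,
with any set `I` of integers in `[1, N]`;

(2) the bound of Q1: if `|a_n| ≤ 1` and `|D(i (t_0 + t_r(u)))| ≥ V` for all `r`, `V^2 ≥ 2 |I| T^ε`, then
`R ≤ 2 |I|^2 V^{-2} T^ε`; and if `R ≤ |I|` this bound holds for every subfamily and every `V > 0`.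

Here `0 < ε ≤ 1` is arbitrary, and `T` is any number `≥ N^D` with `D = C(B) ε^{-3/4}`. For small `ε` this is much
smaller than `N^{1/ε}`, where the bound of Q1 becomes trivial. The points may be much larger than `T`.

Proof. The `k`-th power of the trace of the Gram matrix of the vectors `(n^{-i t_r})_n` is a sum over closed walks
`(n_1, r_1, n_2, r_2, …)`, and the mean over `u` of the term of a walk is `∫ exp(i ∑_r c_r t_r(u)) du`, where `c_r` is
the sum of `log n_{j+1} - log n_j` over the visits of `r`. If some `c_r` is not `0` then `|c_r| ≥ N^{-k}`, and by a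
Vandermonde argument at every point `u` one of the first `k` derivatives of the phase is at least `T N^{-C}`, so the
integral is very small (van der Corput). If all `c_r` are `0` then the label `n_j` of the step to a new point `r` is
determined by the other labels, so there are at most `(k (|I| + R))^{k+1}` such walks.
The parts `L_QT`, `L_TR` are by helper64, `L_WC`, `L_LG` by helper74; the integral bound is from the starting library
(`Y933/KI`).
-/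

set_option autoImplicit false

namespace Pool.Agent.Results.MP_a93a41_nt.GenericPerturbations

open Finset MeasureTheory

/-- The Dirichlet polynomial `D(it) = ∑_{n ∈ I} a_n n^{-it}`. -/
noncomputable def D (I : Finset ℕ) (a : ℕ → ℂ) (t : ℝ) : ℂ :=
  ∑ n ∈ I, a n * (n : ℂ) ^ (-((t : ℂ) * Complex.I))

/-- **The large sieve inequality and the large values bound for generic perturbations of arbitrary points.** -/
theorem result (B : ℕ) : ∃ C : ℝ, 1 ≤ C ∧ ∀ ε : ℝ, 0 < ε → ε ≤ 1 → ∃ K : ℝ, 0 < K ∧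
    ∀ (N R : ℕ) (T : ℝ), 1 ≤ N → (R : ℝ) ≤ (N : ℝ) ^ B → (N : ℝ) ^ (C * ε ^ (-(3 / 4) : ℝ)) ≤ T →
    ∀ I : Finset ℕ, I ⊆ Icc 1 N → ∀ (τ w x : ℕ → ℝ),
    (∀ r < R, T / (N : ℝ) ^ B ≤ |w r| ∧ |w r| ≤ T) →
    (∀ r < R, 1 + 1 / (N : ℝ) ^ B ≤ x r ∧ x r ≤ (N : ℝ) ^ B) →
    (∀ r < R, ∀ s < R, r ≠ s → 1 / (N : ℝ) ^ B ≤ |x r - x s|) →
    ∃ E : Set ℝ, MeasurableSet E ∧ volume E ≤ ENNReal.ofReal (K / (N : ℝ) ^ B) ∧
      ∀ u ∈ Set.Icc (0 : ℝ) 1, u ∉ E →
        (∀ a : ℕ → ℂ, ∑ r ∈ range R, ‖D I a (τ r + w r * x r ^ u)‖ ^ 2 ≤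
          T ^ ε * ((I.card : ℝ) + R) * ∑ n ∈ I, ‖a n‖ ^ 2) ∧
        ∀ (a : ℕ → ℂ) (t₀ V : ℝ) (W : Finset ℕ), (∀ n, ‖a n‖ ≤ 1) → 0 < V → W ⊆ range R →
          (∀ r ∈ W, V ≤ ‖D I a (t₀ + (τ r + w r * x r ^ u))‖) →
          (R ≤ I.card ∨ (W = range R ∧ 2 * (I.card : ℝ) * T ^ ε ≤ V ^ 2)) →
          (W.card : ℝ) ≤ 2 * ((I.card : ℝ) ^ 2 / V ^ 2 * T ^ ε) := by
  obtain ⟨C, hC, h⟩ := Pool.Agent.K9h70.RE.exceptB B
  refine ⟨C, hC, fun ε hε hε1 => ?_⟩
  obtain ⟨K, hK, h1⟩ := h ε hε hε1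
  refine ⟨K, hK, ?_⟩
  intro N R T hN hR hT I hI τ w x hw hx hsep
  have h2 := h1 N R T hN hT I hI hR τ w x hw hx hsep
  have hN0 : (0 : ℝ) < N := by exact_mod_cast hN
  have hT0 : 0 < T := lt_of_lt_of_le (Real.rpow_pos_of_pos hN0 _) hT
  have hTe : 0 < T ^ ε := Real.rpow_pos_of_pos hT0 _
  set Bad : Set ℝ := {u : ℝ | u ∈ Set.Icc (0 : ℝ) 1 ∧ ∃ a : ℕ → ℂ,
      T ^ ε * ((I.card : ℝ) + R) * ∑ n ∈ I, ‖a n‖ ^ 2 <
        ∑ s ∈ Finset.range R, ‖Pool.Agent.K9h70.RE.DI I a (τ s + w s * x s ^ u)‖ ^ 2} with hBad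
  refine ⟨toMeasurable volume Bad, measurableSet_toMeasurable _ _, by rw [measure_toMeasurable]; exact h2, ?_⟩
  intro u hu huE
  have hgood : ∀ a : ℕ → ℂ, ∑ r ∈ range R, ‖D I a (τ r + w r * x r ^ u)‖ ^ 2 ≤
      T ^ ε * ((I.card : ℝ) + R) * ∑ n ∈ I, ‖a n‖ ^ 2 := by
    intro a
    by_contra hcon
    exact huE (subset_toMeasurable _ _ ⟨hu, a, not_le.1 hcon⟩)
  refine ⟨hgood, ?_⟩
  intro a t₀ V W ha hV hW hlarge hcase
  -- absorb the common shift
  have hshift : ∀ t : ℝ, D I a (t₀ + t) = D I (fun n => a n * (n : ℂ) ^ (-((t₀ : ℂ) * Complex.I))) t := by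
    intro t
    unfold D
    apply sum_congr rfl
    intro n hn
    have hn0 : (n : ℂ) ≠ 0 := by
      have := (mem_Icc.1 (hI hn)).1
      exact_mod_cast (by omega : n ≠ 0)
    rw [mul_assoc, ← Complex.cpow_add _ _ hn0]
    congr 2
    push_cast
    ring
  have hb : ∀ n ∈ I, ‖a n * (n : ℂ) ^ (-((t₀ : ℂ) * Complex.I))‖ ^ 2 ≤ 1 := by
    intro n hn
    have hn1 : 1 ≤ n := (mem_Icc.1 (hI hn)).1
    rw [norm_mul, Pool.Agent.K9h70.RE.termB_eq hn1, Complex.norm_exp_ofReal_mul_I, mul_one]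
    exact pow_le_one₀ (norm_nonneg _) (ha n)
  have h3 := hgood (fun n => a n * (n : ℂ) ^ (-((t₀ : ℂ) * Complex.I)))
  have h4 : ∑ n ∈ I, ‖a n * (n : ℂ) ^ (-((t₀ : ℂ) * Complex.I))‖ ^ 2 ≤ I.card := by
    calc _ ≤ ∑ n ∈ I, (1 : ℝ) := sum_le_sum hb
      _ = I.card := by simp
  have h5 : (W.card : ℝ) * V ^ 2 ≤ ∑ r ∈ range R,
      ‖D I (fun n => a n * (n : ℂ) ^ (-((t₀ : ℂ) * Complex.I))) (τ r + w r * x r ^ u)‖ ^ 2 := by
    calc (W.card : ℝ) * V ^ 2 = ∑ r ∈ W, V ^ 2 := by simp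
      _ ≤ ∑ r ∈ W, ‖D I (fun n => a n * (n : ℂ) ^ (-((t₀ : ℂ) * Complex.I))) (τ r + w r * x r ^ u)‖ ^ 2 := by
          apply sum_le_sum
          intro r hr
          have h6 := hlarge r hr
          rw [hshift] at h6
          exact pow_le_pow_left₀ hV.le h6 2
      _ ≤ _ := sum_le_sum_of_subset_of_nonneg hW (fun _ _ _ => by positivity)
  have hc0 : (0 : ℝ) ≤ I.card := Nat.cast_nonneg _
  have hR0 : (0 : ℝ) ≤ R := Nat.cast_nonneg _
  have h6 : (W.card : ℝ) * V ^ 2 ≤ T ^ ε * ((I.card : ℝ) + R) * I.card :=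
    h5.trans (h3.trans (mul_le_mul_of_nonneg_left h4 (by positivity)))
  have hV2 : 0 < V ^ 2 := by positivity
  have hgoal : (W.card : ℝ) * V ^ 2 ≤ 2 * ((I.card : ℝ) ^ 2 * T ^ ε) := by
    rcases hcase with hc | ⟨hc, hc2⟩
    · have hc' : (R : ℝ) ≤ I.card := by exact_mod_cast hc
      calc (W.card : ℝ) * V ^ 2 ≤ T ^ ε * ((I.card : ℝ) + R) * I.card := h6
        _ ≤ T ^ ε * ((I.card : ℝ) + I.card) * I.card := by gcongr
        _ = _ := by ring
    · have hWR : (W.card : ℝ) = R := by rw [hc, card_range]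
      rw [hWR] at h6 ⊢
      have h7 : 2 * (T ^ ε * R * I.card) ≤ R * V ^ 2 := by
        calc 2 * (T ^ ε * R * I.card) = R * (2 * (I.card : ℝ) * T ^ ε) := by ring
          _ ≤ R * V ^ 2 := mul_le_mul_of_nonneg_left hc2 hR0
      nlinarith
  calc (W.card : ℝ) = (W.card : ℝ) * V ^ 2 / V ^ 2 := by field_simp
    _ ≤ 2 * ((I.card : ℝ) ^ 2 * T ^ ε) / V ^ 2 := by gcongr
    _ = _ := by ring

end Pool.Agent.Results.MP_a93a41_nt.GenericPerturbations
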