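import Mathlib
import Pool.Agent.K9h65.SM6.All2

set_option autoImplicit false

/-!
# Large values at well-spaced points: the conjectured bound for sparse sets in short intervals

The statement of Q1 holds for all coefficients bounded by `1` which vanish outside a set `E` of `N^(1/2)` integers and
outside sets `{m_j + d_j h : h ∈ X_j}`, `X_j ⊂ [0, H_j)`, satisfying the condition `Small` below. For instance:

* for all `T ≤ N²` and all coefficients supported on an interval of at most `K N^(3/5)` consecutive integers of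
  `[N/2, N]`;
* for all `T ≤ N²` and all coefficients supported on an arbitrary set of at most `K N / L^(2/3)` integers in an
  interval of length `L ≥ N^(1/2)` of `[N/2, N]` (so on any `N^(5/9)` integers of an interval of length `N^(2/3)`);
* for all coefficients supported on a progression of difference `d` with `H ≥ (N/d)^(1/2)` terms in `[N/2, N]`, if
  `d H⁵ max(T, N²) ≤ K N⁵`.

The proof is by the sixth moment: the number of the solutions of `x₁ + x₂ + x₃ = x₄ + x₅ + x₆`,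
`ψ x₁ + ψ x₂ + ψ x₃ = ψ x₄ + ψ x₅ + ψ x₆` in a subset `X` of an interval of `H` integers is at most `C H^ε |X|³` for
all `ψ : ℤ → ℤ` which are convex like `x²` up to bounded errors (`Pool.Agent.K9h65.SM6.sAll2`).
-/

namespace Pool.Agent.Results.MP_a93a41_nt.SixthMoment

open Finset

/-- `D(it) = ∑_{n ≤ N} a_n n^{-it}` -/
noncomputable def D (N : ℕ) (a : ℕ → ℂ) (t : ℝ) : ℂ :=
  ∑ n ∈ Icc 1 N, a n * Complex.exp (-(Complex.I * (t : ℂ) * (Real.log (n : ℝ) : ℂ)))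

/-- the conclusion of Q1, with the constant `C`: if `V² ≥ N T^ε`, `S ⊂ [0,T]` is `1`-separated and `|D(it)| ≥ V` on
`S`, then `|S| ≤ C N² V^(-2) T^ε` -/
def LargeValues (ε C : ℝ) (N : ℕ) (T : ℝ) (a : ℕ → ℂ) : Prop :=
  ∀ V : ℝ, 0 < V → N * T ^ ε ≤ V ^ 2 → ∀ S : Finset ℝ, (∀ t ∈ S, 0 ≤ t ∧ t ≤ T) →
    (∀ t ∈ S, ∀ u ∈ S, t ≠ u → 1 ≤ |t - u|) → (∀ t ∈ S, V ≤ ‖D N a t‖) →
    (S.card : ℝ) ≤ C * ((N : ℝ) ^ 2 / V ^ 2 * T ^ ε)

/-- the progressions `m_j, m_j + d_j, …, m_j + (H_j - 1) d_j` (`j ∈ J`) lie in `[1, N]`, each of them in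
`[m_j, 2 m_j]`, and `X_j` is a set of indices `0 ≤ h < H_j` -/
def Inside (N : ℕ) (J : Finset ℕ) (m d H : ℕ → ℕ) (X : ℕ → Finset ℕ) : Prop :=
  ∀ j ∈ J, 1 ≤ m j ∧ 1 ≤ d j ∧ 1 ≤ H j ∧ d j * (H j - 1) ≤ m j ∧ m j + d j * (H j - 1) ≤ N ∧ X j ⊆ range (H j)

/-- `|J|⁵ max(T, N²) ∑_j (1 + d_j H_j²/m_j) |X_j|³ ≤ K N⁴` -/
def Small (K : ℝ) (N : ℕ) (T : ℝ) (J : Finset ℕ) (m d H : ℕ → ℕ) (X : ℕ → Finset ℕ) : Prop :=
  (J.card : ℝ) ^ 5 * max T ((N : ℝ) ^ 2) *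
    ∑ j ∈ J, (1 + d j * (H j : ℝ) ^ 2 / m j) * ((X j).card : ℝ) ^ 3 ≤ K * (N : ℝ) ^ 4

/-- Let `ε > 0` and `K ≥ 1`. There is `C` such that the statement of Q1 holds, with the constant `C`, for all `N ≥ 1`,
`T ≥ 1` and all `|a_n| ≤ 1` which vanish in `[1, N]` outside the union of a set `E` of at most `N^(1/2)` integers and of
the sets `{m_j + d_j h : h ∈ X_j}`, `j ∈ J`, with `Inside` and `Small`. -/
theorem result (ε K : ℝ) (hε : 0 < ε) (hK : 1 ≤ K) : ∃ C : ℝ, ∀ (N : ℕ) (J : Finset ℕ) (m d H : ℕ → ℕ)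
    (X : ℕ → Finset ℕ) (E : Finset ℕ) (T : ℝ) (a : ℕ → ℂ), 1 ≤ N → 1 ≤ T → Inside N J m d H X →
      Small K N T J m d H X → (E.card : ℝ) ^ 2 ≤ N → (∀ n, ‖a n‖ ≤ 1) →
      (∀ n ∈ Icc 1 N, a n ≠ 0 → n ∈ E ∨ ∃ j ∈ J, ∃ h ∈ X j, n = m j + d j * h) → LargeValues ε C N T a := by
  obtain ⟨C, hC⟩ := Pool.Agent.K9h65.SM6.final3 ε K hε hK
  refine ⟨C, ?_⟩
  intro N J m d H X E T a hN hT hI hSm hE ha hs V hV hVN S hS hsep hD
  exact hC N J m d H X E T V a hN hI hSm hE hT hV hVN ha hs S hS hsep hD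

end Pool.Agent.Results.MP_a93a41_nt.SixthMoment
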